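import Pool.Agent.Helper29.SH.Goals

/-!
Packet SH-SYC (project SH, MP_0a002a_al): the invariant Sylow subgroup contains every invariant
`q`-subgroup.
-/

set_option autoImplicit false

namespace Pool.Agent.Helper2.SH

open Subgroup Pool.Agent.Helper29.SH

theorem inv_pow {M : Type} [Group M] {a : M} {R : Subgroup M} (h : Inv a R) (n : ℕ) :
    ∀ r ∈ R, (a ^ n)⁻¹ * r * a ^ n ∈ R := by
  induction n with
  | zero =>
    intro r hr
    simpa using hr
  | succ n ih =>
    intro r hr
    have h1 := h _ (ih r hr)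
    have h2 : a⁻¹ * ((a ^ n)⁻¹ * r * a ^ n) * a = (a ^ (n + 1))⁻¹ * r * a ^ (n + 1) := by
      rw [pow_succ]
      group
    rwa [h2] at h1

theorem mem_normalizer_of_inv {M : Type} [Group M] {a : M} {R : Subgroup M} {p : ℕ}
    (hp : p.Prime) (hap : a ^ p = 1) (h : Inv a R) : a ∈ normalizer (R : Set M) := by
  rw [Subgroup.mem_normalizer_iff]
  have h0 : a ^ (p - 1) = a⁻¹ := by
    apply eq_inv_of_mul_eq_one_left
    rw [← pow_succ, Nat.sub_add_cancel hp.one_le, hap]
  intro r
  constructor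
  · intro hr
    have h1 := inv_pow h (p - 1) r hr
    rwa [h0, inv_inv] at h1
  · intro hr
    have h1 := h _ hr
    have h2 : a⁻¹ * (a * r * a⁻¹) * a = r := by group
    rwa [h2] at h1

theorem t_SYC (hE : S_SYE) (hU : S_SYU) : S_SYC := by
  intro M _ a K p q hKf hinv hfpf hp hap hq
  have : Fact q.Prime := ⟨hq⟩
  obtain ⟨S, hSK, hScard, hSinv⟩ := hE M a K p q hKf hinv hfpf hp hap hq
  refine ⟨S, hSK, hScard, hSinv, ?_⟩
  intro R hRK hRp hRinv
  have hKfin : Finite K := hKf
  have hcardle : ∀ A : Subgroup M, A ≤ K → Nat.card A ≤ Nat.card K := fun A hA =>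
    Nat.le_of_dvd Nat.card_pos (Subgroup.card_dvd_of_le hA)
  -- a maximal one
  obtain ⟨R', ⟨hR'K, hR'p, hR'inv, hRR'⟩, hmax⟩ : ∃ R' : Subgroup M,
      (R' ≤ K ∧ IsPGroup q R' ∧ Inv a R' ∧ R ≤ R') ∧
      ∀ A : Subgroup M, A ≤ K → IsPGroup q A → Inv a A → R ≤ A → Nat.card A ≤ Nat.card R' := by
    set T : Set ℕ := {n | ∃ A : Subgroup M, (A ≤ K ∧ IsPGroup q A ∧ Inv a A ∧ R ≤ A) ∧
      Nat.card A = n} with hT
    have h1 : T.Nonempty := ⟨_, R, ⟨hRK, hRp, hRinv, le_rfl⟩, rfl⟩
    have h2 : BddAbove T := by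
      refine ⟨Nat.card K, ?_⟩
      rintro n ⟨A, hA, rfl⟩
      exact hcardle A hA.1
    obtain ⟨R', hR', hc⟩ := Nat.sSup_mem h1 h2
    refine ⟨R', hR', fun A h3 h4 h5 h6 => ?_⟩
    rw [hc]
    exact le_csSup h2 ⟨A, ⟨h3, h4, h5, h6⟩, rfl⟩
  set N : Subgroup M := normalizer (R' : Set M) ⊓ K with hN
  have hNK : N ≤ K := inf_le_right
  have haN : a ∈ normalizer (R' : Set M) := mem_normalizer_of_inv hp hap hR'inv
  have hNinv : Inv a N := fun k hk =>
    Subgroup.mem_inf.2 ⟨(normalizer (R' : Set M)).mul_mem ((normalizer (R' : Set M)).mul_mem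
      ((normalizer (R' : Set M)).inv_mem haN) (Subgroup.mem_inf.1 hk).1) haN,
      hinv k (Subgroup.mem_inf.1 hk).2⟩
  have hNfin : (N : Set M).Finite := hKf.subset hNK
  have hNfpf : FPF a N := fun k hk => hfpf k (hNK hk)
  obtain ⟨S', hS'N, hS'card, hS'inv⟩ := hE M a N p q hNfin hNinv hNfpf hp hap hq
  have hR'N : R' ≤ N := le_inf le_normalizer hR'K
  have hNfin' : Finite N := hNfin
  have hS'p : IsPGroup q S' := IsPGroup.of_card hS'card
  -- `R' ≤ S'`
  have hR'S' : R' ≤ S' := by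
    have h1 : IsPGroup q (R' ⊔ S' : Subgroup M) :=
      IsPGroup.to_sup_of_normal_left' hR'p hS'p (hS'N.trans inf_le_left)
    have h2 : R' ⊔ S' ≤ N := sup_le hR'N hS'N
    have : Finite (R' ⊔ S' : Subgroup M) := Finite.Set.subset (N : Set M) h2
    obtain ⟨n, hn⟩ := IsPGroup.iff_card.1 h1
    have h3 : q ^ n ∣ Nat.card N := by
      rw [← hn]
      exact Subgroup.card_dvd_of_le h2
    have h4 : n ≤ (Nat.card N).factorization q :=
      (hq.pow_dvd_iff_le_factorization Nat.card_pos.ne').1 h3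
    have h5 : Nat.card (R' ⊔ S' : Subgroup M) ≤ Nat.card S' := by
      rw [hn, hS'card]
      exact Nat.pow_le_pow_right hq.pos h4
    have h6 : S' = R' ⊔ S' := Subgroup.eq_of_le_of_card_ge le_sup_right h5
    rw [h6]
    exact le_sup_left
  have hS'fin : Finite S' := Finite.Set.subset (N : Set M) hS'N
  have hR'eq : R' = S' :=
    Subgroup.eq_of_le_of_card_ge hR'S' (hmax S' (hS'N.trans hNK) hS'p hS'inv (hRR'.trans hR'S'))
  have hR'card : Nat.card R' = q ^ (Nat.card N).factorization q := by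
    rw [← hS'card, hR'eq]
  -- `R'` is a Sylow subgroup of `K`
  have hfac : (Nat.card N).factorization q = (Nat.card K).factorization q := by
    apply le_antisymm
    · exact (Nat.factorization_le_iff_dvd Nat.card_pos.ne' Nat.card_pos.ne').2
        (Subgroup.card_dvd_of_le hNK) q
    · by_contra hlt
      push Not at hlt
      have h1 : Nat.card (R'.subgroupOf K) = q ^ (Nat.card N).factorization q := by
        rw [Nat.card_congr (subgroupOfEquivOfLe hR'K).toEquiv, hR'card]
      have h2 := Sylow.card_normalizer_modEq_card (G := K) h1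
      have h3 : Nat.card (normalizer ((R'.subgroupOf K : Subgroup K) : Set K)) = Nat.card N := by
        rw [← subgroupOf_normalizer_eq hR'K, ← Subgroup.inf_subgroupOf_right, ← hN]
        exact Nat.card_congr (subgroupOfEquivOfLe hNK).toEquiv
      rw [h3] at h2
      have h4 : q ^ ((Nat.card N).factorization q + 1) ∣ Nat.card K :=
        (hq.pow_dvd_iff_le_factorization Nat.card_pos.ne').2 hlt
      have h5 : q ^ ((Nat.card N).factorization q + 1) ∣ Nat.card N :=
        (h2.dvd_iff dvd_rfl).2 h4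
      exact Nat.pow_succ_factorization_not_dvd Nat.card_pos.ne' hq h5
  rw [hfac] at hR'card
  have h7 : S = R' := hU M a K S R' q hKf hinv hfpf hq hSK hR'K hScard hR'card hSinv hR'inv
  rw [h7]
  exact hRR'

end Pool.Agent.Helper2.SH
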